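import Mathlib

/-!
The infiltration game with `n = 1` and `n = 2` cells: value `1` and `λ`, for every speed `w ≥ 1`.
For every `n ≥ 2` and `w ≥ 1` the searcher can hold the infiltrator to `λ`.
-/

set_option autoImplicit false

namespace Pool.Agent.Results.MP_90dd8d_pr.TwoCells

/-- paths of the searcher -/
def IsSearcher (n w : ℕ) (y : ℕ → ℕ) : Prop :=
  y 0 = 1 ∧ (∀ k, 1 ≤ y k ∧ y k ≤ n) ∧ ∀ k, y (k + 1) ≤ y k + w ∧ y k ≤ y (k + 1) + w

/-- paths of the infiltrator -/
def IsInfiltrator (n : ℕ) (x : ℕ → ℕ) : Prop :=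
  x 0 = 1 ∧ (∀ k, 1 ≤ x k ∧ x k ≤ n + 1) ∧ ∀ k, x (k + 1) ≤ x k + 1 ∧ x k ≤ x (k + 1) + 1

open Classical in
/-- the probability that the infiltrator wins: `λ` to the number of time units `1 ≤ k < T` with
`x_k = y_k`, where `T` is the first time at the target, and `0` if the target is never reached -/
noncomputable def payoff (n : ℕ) (lam : ℝ) (x y : ℕ → ℕ) : ℝ :=
  if h : ∃ T, x T = n + 1 then
    lam ^ ((Finset.Ico 1 (Nat.find h)).filter fun k => x k = y k).card
  else 0

/-- `v` is the value, attained by the pure strategies `x` and `y` -/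
def IsSaddle (n w : ℕ) (lam v : ℝ) (x y : ℕ → ℕ) : Prop :=
  IsInfiltrator n x ∧ IsSearcher n w y ∧ (∀ y', IsSearcher n w y' → v ≤ payoff n lam x y') ∧
    ∀ x', IsInfiltrator n x' → payoff n lam x' y ≤ v

lemma payoff_le_one (n : ℕ) (lam : ℝ) (h0 : 0 < lam) (h1 : lam < 1) (x y : ℕ → ℕ) :
    payoff n lam x y ≤ 1 := by
  unfold payoff
  split_ifs with h
  · exact pow_le_one₀ h0.le h1.le
  · norm_num

lemma payoff_ge (n : ℕ) (lam : ℝ) (h0 : 0 < lam) (h1 : lam < 1) (x y : ℕ → ℕ) (T : ℕ)
    (hT : x T = n + 1) : lam ^ (T - 1) ≤ payoff n lam x y := by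
  classical
  have h : ∃ T, x T = n + 1 := ⟨T, hT⟩
  unfold payoff
  rw [dif_pos h]
  apply pow_le_pow_of_le_one h0.le h1.le
  calc _ ≤ (Finset.Ico 1 (Nat.find h)).card := Finset.card_filter_le _ _
    _ = Nat.find h - 1 := by simp
    _ ≤ T - 1 := by
      have : Nat.find h ≤ T := by convert Nat.find_min' h hT
      omega

/-- for all `n ≥ 2` and `w ≥ 1`: going to cell `n` at full speed and staying there holds the
infiltrator to `λ` -/
lemma upper (n : ℕ) (hn : 2 ≤ n) (lam : ℝ) (h0 : 0 < lam) (h1 : lam < 1) (x : ℕ → ℕ)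
    (hx : IsInfiltrator n x) : payoff n lam x (fun k => min (k + 1) n) ≤ lam := by
  classical
  unfold payoff
  split_ifs with h
  · set T := Nat.find h with hTdef
    have hT : x T = n + 1 := Nat.find_spec h
    have hle : ∀ k, x k ≤ k + 1 := by
      intro k
      induction k with
      | zero => rw [hx.1]
      | succ k ih => have := (hx.2.2 k).1; omega
    have hTn : n ≤ T := by have := hle T; omega
    have hprev : x (T - 1) ≠ n + 1 := Nat.find_min h (by omega)
    have hb := (hx.2.1 (T - 1)).2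
    have hs := (hx.2.2 (T - 1)).1
    have hTT : T - 1 + 1 = T := by omega
    rw [hTT, hT] at hs
    have hxn : x (T - 1) = n := by omega
    have hmem : T - 1 ∈ (Finset.Ico 1 T).filter fun k => x k = min (k + 1) n := by
      rw [Finset.mem_filter, Finset.mem_Ico]
      refine ⟨⟨by omega, by omega⟩, ?_⟩
      rw [hxn]; omega
    have hc : 1 ≤ ((Finset.Ico 1 T).filter fun k => x k = min (k + 1) n).card :=
      Finset.card_pos.mpr ⟨_, hmem⟩
    calc lam ^ _ ≤ lam ^ 1 := pow_le_pow_of_le_one h0.le h1.le hc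
      _ = lam := pow_one _
  · exact h0.le

theorem result (w : ℕ) (hw : 1 ≤ w) (lam : ℝ) (h0 : 0 < lam) (h1 : lam < 1) :
    IsSaddle 1 w lam 1 (fun k => min (k + 1) 2) (fun _ => 1) ∧
    IsSaddle 2 w lam lam (fun k => min (k + 1) 3) (fun k => min (k + 1) 2) := by
  refine ⟨⟨⟨by simp, fun k => by constructor <;> simp, fun k => by constructor <;> dsimp only <;> omega⟩,
    ⟨rfl, fun k => ⟨le_rfl, le_rfl⟩, fun k => by constructor <;> dsimp only <;> omega⟩, ?_, ?_⟩,
    ⟨⟨by simp, fun k => by constructor <;> simp, fun k => by constructor <;> dsimp only <;> omega⟩,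
    ⟨by simp, fun k => by constructor <;> simp, fun k => by constructor <;> dsimp only <;> omega⟩, ?_, ?_⟩⟩
  · intro y' _
    have := payoff_ge 1 lam h0 h1 (fun k => min (k + 1) 2) y' 1 (by simp)
    simpa using this
  · intro x' _
    exact payoff_le_one 1 lam h0 h1 _ _
  · intro y' _
    have := payoff_ge 2 lam h0 h1 (fun k => min (k + 1) 3) y' 2 (by simp)
    simpa using this
  · intro x' hx'
    exact upper 2 le_rfl lam h0 h1 x' hx'

end Pool.Agent.Results.MP_90dd8d_pr.TwoCells
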